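import Mathlib
import Pool.Agent.H925R3.RR.Stubs

set_option autoImplicit false

namespace Pool.Agent.H443R3.RREDS

open Finset Pool.Agent.H925R3.RR

theorem ht_ge (q : ℚ) (m : ℝ) (hm : 0 < m) (h : m ≤ (max (|q.num| : ℤ) (q.den : ℤ) : ℤ)) :
    Real.log m ≤ ht q := Real.log_le_log hm h

theorem l0_le_ht (q : ℚ) : Real.log (max 1 |(q : ℝ)|) ≤ ht q := by
  refine ht_ge q _ (lt_of_lt_of_le one_pos (le_max_left _ _)) ?_
  have hd : (1 : ℤ) ≤ (q.den : ℤ) := by exact_mod_cast q.den_pos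
  refine max_le ?_ ?_
  · have : (1 : ℤ) ≤ max |q.num| (q.den : ℤ) := hd.trans (le_max_right _ _)
    exact_mod_cast this
  · have h1 : |(q : ℝ)| ≤ ((|q.num| : ℤ) : ℝ) := by
      have e : (q : ℝ) = (q.num : ℝ) / (q.den : ℝ) := Rat.cast_def q
      rw [e, abs_div, Int.cast_abs]
      have hd' : (1 : ℝ) ≤ |(q.den : ℝ)| := by
        rw [abs_of_nonneg (Nat.cast_nonneg _)]
        exact_mod_cast q.den_pos
      exact div_le_self (abs_nonneg _) hd'
    refine h1.trans ?_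
    exact_mod_cast (le_max_left |q.num| (q.den : ℤ))

theorem lp_le_ht (q : ℚ) (p : ℕ) (hp : p.Prime) :
    (padicValNat p q.den : ℝ) * Real.log p ≤ ht q := by
  have e : (padicValNat p q.den : ℝ) * Real.log p = Real.log ((p ^ padicValNat p q.den : ℕ) : ℝ) := by
    push_cast
    rw [Real.log_pow]
  rw [e]
  refine ht_ge q _ (by exact_mod_cast pow_pos hp.pos _) ?_
  have h1 : p ^ padicValNat p q.den ≤ q.den := Nat.le_of_dvd q.den_pos pow_padicValNat_dvd
  have h2 : ((p ^ padicValNat p q.den : ℕ) : ℤ) ≤ max |q.num| (q.den : ℤ) :=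
    (by exact_mod_cast h1 : ((p ^ padicValNat p q.den : ℕ) : ℤ) ≤ (q.den : ℤ)).trans
      (le_max_right _ _)
  exact_mod_cast h2

section
variable {x : ℕ → ℚ} {h C K : ℝ}

theorem mem_iff {p : ℕ} (hp : p.Prime) (q : ℚ) : p ∣ q.den ↔ 1 ≤ padicValNat p q.den := by
  have := Fact.mk hp
  constructor
  · intro h
    exact one_le_padicValNat_of_dvd q.den_pos.ne' h
  · intro h
    exact dvd_of_one_le_padicValNat h

theorem sub_mem (hX : XSeq x h C K) {p : ℕ} (hp : p.Prime) {n n' : ℕ} (h1 : 1 ≤ n) (h2 : n < n')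
    (a : p ∣ (x n).den) (b : p ∣ (x n').den) : p ∣ (x (n' - n)).den := by
  rw [mem_iff hp] at a b ⊢
  exact (le_min a b).trans (hX.sub p hp n n' h1 h2)

theorem add_mem (hX : XSeq x h C K) {p : ℕ} (hp : p.Prime) {n n' : ℕ} (h1 : 1 ≤ n) (h2 : 1 ≤ n')
    (a : p ∣ (x n).den) (b : p ∣ (x n').den) : p ∣ (x (n + n')).den := by
  rw [mem_iff hp] at a b ⊢
  exact (le_min a b).trans (hX.add p hp n n' h1 h2)

theorem mul_mem (hX : XSeq x h C K) {p : ℕ} (hp : p.Prime) {n : ℕ} (h1 : 1 ≤ n)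
    (a : p ∣ (x n).den) (k : ℕ) : p ∣ (x ((k + 1) * n)).den := by
  induction k with
  | zero => simpa using a
  | succ k ih =>
    have : (k + 1 + 1) * n = (k + 1) * n + n := by ring
    rw [this]
    exact add_mem hX hp (Nat.mul_pos (Nat.succ_pos k) h1) h1 ih a

theorem dvd_mem (hX : XSeq x h C K) {p : ℕ} (hp : p.Prime) {n m : ℕ} (h1 : 1 ≤ n) (hm : 1 ≤ m)
    (hnm : n ∣ m) (a : p ∣ (x n).den) : p ∣ (x m).den := by
  obtain ⟨k, rfl⟩ := hnm
  cases k with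
  | zero => simp at hm
  | succ k =>
    rw [mul_comm]
    exact mul_mem hX hp h1 a k

theorem gcd_mem (hX : XSeq x h C K) {p : ℕ} (hp : p.Prime) : ∀ s n n' : ℕ, n + n' ≤ s → 1 ≤ n →
    1 ≤ n' → p ∣ (x n).den → p ∣ (x n').den → p ∣ (x (Nat.gcd n n')).den := by
  intro s
  induction s with
  | zero => intro n n' hs h1; omega
  | succ s ih =>
    intro n n' hs h1 h2 a b
    rcases lt_trichotomy n n' with hlt | heq | hgt
    · have e : Nat.gcd n n' = Nat.gcd n (n' - n) := by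
        rw [Nat.gcd_sub_self_right hlt.le]
      rw [e]
      exact ih n (n' - n) (by omega) h1 (by omega) a (sub_mem hX hp h1 hlt a b)
    · subst heq
      rwa [Nat.gcd_self]
    · have e : Nat.gcd n n' = Nat.gcd (n - n') n' := by
        rw [Nat.gcd_sub_self_left hgt.le]
      rw [e]
      exact ih (n - n') n' (by omega) (by omega) h2 (sub_mem hX hp h2 hgt b a) b

/-- `2 ^ i * 3 ^ j` -/
def nf (q : ℕ × ℕ) : ℕ := 2 ^ q.1 * 3 ^ q.2

theorem nf_pos (q : ℕ × ℕ) : 1 ≤ nf q := Nat.mul_pos (pow_pos two_pos _) (pow_pos three_pos _)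

theorem nf_dvd {q q' : ℕ × ℕ} (h1 : q.1 ≤ q'.1) (h2 : q.2 ≤ q'.2) : nf q ∣ nf q' :=
  mul_dvd_mul (pow_dvd_pow 2 h1) (pow_dvd_pow 3 h2)

theorem nf_gcd (q q' : ℕ × ℕ) : Nat.gcd (nf q) (nf q') = nf (min q.1 q'.1, min q.2 q'.2) := by
  apply Nat.dvd_antisymm
  · have hc : ∀ d : ℕ, d ∣ nf q → d ∣ nf q' → d ∣ nf (min q.1 q'.1, min q.2 q'.2) := by
      intro d h1 h2
      obtain ⟨a, b, ha, hb, rfl⟩ := exists_dvd_and_dvd_of_dvd_mul h1
      obtain ⟨a, ha', rfl⟩ := (Nat.dvd_prime_pow Nat.prime_two).1 ha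
      obtain ⟨b, hb', rfl⟩ := (Nat.dvd_prime_pow Nat.prime_three).1 hb
      have c1 : 2 ^ a ∣ 2 ^ q'.1 := by
        have : 2 ^ a ∣ 2 ^ q'.1 * 3 ^ q'.2 := (Dvd.intro _ rfl).trans h2
        exact (Nat.Coprime.pow a q'.2 (by decide : Nat.Coprime 2 3)).dvd_of_dvd_mul_right this
      have c2 : 3 ^ b ∣ 3 ^ q'.2 := by
        have : 3 ^ b ∣ 2 ^ q'.1 * 3 ^ q'.2 := (Dvd.intro_left _ rfl).trans h2
        exact (Nat.Coprime.pow b q'.1 (by decide : Nat.Coprime 3 2)).dvd_of_dvd_mul_left this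
      have d1 : a ≤ q'.1 := (Nat.pow_dvd_pow_iff_le_right (by norm_num)).1 c1
      have d2 : b ≤ q'.2 := (Nat.pow_dvd_pow_iff_le_right (by norm_num)).1 c2
      exact mul_dvd_mul (pow_dvd_pow 2 (le_min ha' d1)) (pow_dvd_pow 3 (le_min hb' d2))
    exact hc _ (Nat.gcd_dvd_left _ _) (Nat.gcd_dvd_right _ _)
  · exact Nat.dvd_gcd (nf_dvd (min_le_left _ _) (min_le_left _ _))
      (nf_dvd (min_le_right _ _) (min_le_right _ _))

theorem nf_inj : Function.Injective nf := by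
  intro q q' hqq
  have h1 := nf_gcd q q'
  have aux : ∀ a b c d : ℕ, 2 ^ a * 3 ^ b = 2 ^ c * 3 ^ d → a ≤ c ∧ b ≤ d := by
    intro a b c d h
    constructor
    · have : 2 ^ a ∣ 2 ^ c * 3 ^ d := h ▸ Dvd.intro _ rfl
      exact (Nat.pow_dvd_pow_iff_le_right (by norm_num)).1
        ((Nat.Coprime.pow a d (by decide : Nat.Coprime 2 3)).dvd_of_dvd_mul_right this)
    · have : 3 ^ b ∣ 2 ^ c * 3 ^ d := h ▸ Dvd.intro_left _ rfl
      exact (Nat.pow_dvd_pow_iff_le_right (by norm_num)).1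
        ((Nat.Coprime.pow b c (by decide : Nat.Coprime 3 2)).dvd_of_dvd_mul_left this)
  have a1 := aux _ _ _ _ (show 2 ^ q.1 * 3 ^ q.2 = 2 ^ q'.1 * 3 ^ q'.2 from hqq)
  have a2 := aux _ _ _ _ (show 2 ^ q'.1 * 3 ^ q'.2 = 2 ^ q.1 * 3 ^ q.2 from hqq.symm)
  exact Prod.ext (le_antisymm a1.1 a2.1) (le_antisymm a1.2 a2.2)

/-- if the same prime is attached to two pairs, the pairs are equal -/
theorem pair_le (hX : XSeq x h C K) {p : ℕ} (hp : p.Prime) {q q' : ℕ × ℕ}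
    (a : p ∣ (x (nf q)).den) (b : p ∣ (x (nf q')).den)
    (a1 : ¬ p ∣ (x (nf (q.1 - 1, q.2))).den) (a2 : ¬ p ∣ (x (nf (q.1, q.2 - 1))).den) :
    q.1 ≤ q'.1 ∧ q.2 ≤ q'.2 := by
  have g := gcd_mem hX hp _ (nf q) (nf q') le_rfl (nf_pos _) (nf_pos _) a b
  rw [nf_gcd] at g
  constructor
  · by_contra hlt
    push Not at hlt
    apply a1
    refine dvd_mem hX hp (nf_pos _) (nf_pos _) (nf_dvd ?_ ?_) g
    · show min q.1 q'.1 ≤ q.1 - 1
      omega
    · exact min_le_left _ _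
  · by_contra hlt
    push Not at hlt
    apply a2
    refine dvd_mem hX hp (nf_pos _) (nf_pos _) (nf_dvd ?_ ?_) g
    · exact min_le_left _ _
    · show min q.2 q'.2 ≤ q.2 - 1
      omega

end

theorem six_pow (I : ℕ) : (6 : ℕ) ^ I = 2 ^ I * 3 ^ I := by
  rw [← mul_pow]
  norm_num

theorem exc_card (l : ℕ → ℝ) (c : ℝ) (I : ℕ) :
    ((((Icc 1 I ×ˢ Icc 1 I).filter fun q => c * (nf q : ℝ) ^ 2 ≤ l (nf q)).card : ℕ) : ℝ) ≤
      (Nat.card {n : ℕ // 1 ≤ n ∧ n ≤ 6 ^ I ∧ c * (n : ℝ) ^ 2 ≤ l n} : ℝ) := by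
  classical
  have e : Nat.card {n : ℕ // 1 ≤ n ∧ n ≤ 6 ^ I ∧ c * (n : ℝ) ^ 2 ≤ l n} =
      ((Icc 1 (6 ^ I)).filter fun n : ℕ => c * (n : ℝ) ^ 2 ≤ l n).card :=
    Nat.subtype_card _ (fun n => by
      rw [mem_filter, mem_Icc, and_assoc])
  rw [e]
  have : ((Icc 1 I ×ˢ Icc 1 I).filter fun q => c * (nf q : ℝ) ^ 2 ≤ l (nf q)).card ≤
      ((Icc 1 (6 ^ I)).filter fun n : ℕ => c * (n : ℝ) ^ 2 ≤ l n).card := by
    refine Finset.card_le_card_of_injOn nf ?_ (nf_inj.injOn)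
    intro q hq
    rw [mem_coe, mem_filter, mem_product, mem_Icc, mem_Icc] at hq
    rw [mem_coe, mem_filter, mem_Icc]
    refine ⟨⟨nf_pos q, ?_⟩, hq.2⟩
    rw [six_pow]
    exact Nat.mul_le_mul (Nat.pow_le_pow_right (by norm_num) hq.1.1.2)
      (Nat.pow_le_pow_right (by norm_num) hq.1.2.2)
  exact_mod_cast this

theorem eds (h1 : GAPS) (h2 : PRIM) : EDS := by
  classical
  intro x h C K hX D hD C₀
  set S₀ : Finset ℕ := (6 * D).primeFactors with hS₀
  have h6D : 6 * D ≠ 0 := by positivity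
  have m2 : 2 ∈ S₀ := Nat.mem_primeFactors.2 ⟨Nat.prime_two, ⟨3 * D, by ring⟩, h6D⟩
  have m3 : 3 ∈ S₀ := Nat.mem_primeFactors.2 ⟨Nat.prime_three, ⟨2 * D, by ring⟩, h6D⟩
  have mp : ∀ p ∈ S₀, p.Prime := fun p hp => Nat.prime_of_mem_primeFactors hp
  obtain ⟨c, hc, n0, H⟩ := h2 x h C K hX S₀ m2 m3 mp
  set C1 : ℝ := |C| + Real.log K with hC1
  have hlogK : 0 ≤ Real.log K := Real.log_nonneg hX.hK
  have hCC : C ≤ C1 := by
    have := le_abs_self C
    linarith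
  have hC10 : 0 ≤ C1 := by positivity
  have hht : ∀ n : ℕ, 1 ≤ n → ht (x n) ≤ h * (n : ℝ) ^ 2 + C1 := by
    intro n hn
    have := (abs_le.1 (hX.height n hn)).2
    linarith
  -- the real place
  obtain ⟨K0, hK0⟩ := h1 (fun n => Real.log (max 1 |((x n : ℚ) : ℝ)|)) h C1 hX.hpos (by
    intro n n' hn hnn
    have hr := hX.real n n' hn hnn
    have hK0 : 0 < K := lt_of_lt_of_le one_pos hX.hK
    have p1 : ∀ m, (0 : ℝ) < max 1 |((x m : ℚ) : ℝ)| := fun m =>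
      lt_of_lt_of_le one_pos (le_max_left _ _)
    have key : ∀ m, |((x m : ℚ) : ℝ)| ≤ K * max 1 |((x (n' - n) : ℚ) : ℝ)| →
        Real.log (max 1 |((x m : ℚ) : ℝ)|) ≤
          Real.log (max 1 |((x (n' - n) : ℚ) : ℝ)|) + C1 := by
      intro m hm
      have a1 : max 1 |((x m : ℚ) : ℝ)| ≤ K * max 1 |((x (n' - n) : ℚ) : ℝ)| := by
        refine max_le ?_ hm
        have := mul_le_mul hX.hK (le_max_left 1 |((x (n' - n) : ℚ) : ℝ)|) zero_le_one hK0.le
        linarith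
      have a2 := Real.log_le_log (p1 m) a1
      rw [Real.log_mul hK0.ne' (p1 _).ne'] at a2
      have := abs_nonneg C
      linarith
    rcases min_le_iff.1 hr with hr | hr
    · exact (min_le_left _ _).trans (key n hr)
    · exact (min_le_right _ _).trans (key n' hr)) (by
    intro n hn
    exact (l0_le_ht (x n)).trans (hht n hn)) c hc
  -- the primes of S₀
  have hp' : ∀ p ∈ S₀, ∃ Kp : ℝ, ∀ X : ℕ, 1 ≤ X →
      (Nat.card {n : ℕ // 1 ≤ n ∧ n ≤ X ∧ c * (n : ℝ) ^ 2 ≤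
        (padicValNat p (x n).den : ℝ) * Real.log p} : ℝ) ≤ Kp * (1 + Real.log X) := by
    intro p hp
    refine h1 (fun n => (padicValNat p (x n).den : ℝ) * Real.log p) h C1 hX.hpos ?_ ?_ c hc
    · intro n n' hn hnn
      have hs := hX.sub p (mp p hp) n n' hn hnn
      have hlp : 0 ≤ Real.log (p : ℝ) := Real.log_natCast_nonneg p
      have a1 : min ((padicValNat p (x n).den : ℝ) * Real.log p)
          ((padicValNat p (x n').den : ℝ) * Real.log p) ≤
          (padicValNat p (x (n' - n)).den : ℝ) * Real.log p := by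
        rcases min_le_iff.1 hs with hs | hs
        · refine (min_le_left _ _).trans (mul_le_mul_of_nonneg_right ?_ hlp)
          exact_mod_cast hs
        · refine (min_le_right _ _).trans (mul_le_mul_of_nonneg_right ?_ hlp)
          exact_mod_cast hs
      linarith
    · intro n hn
      exact (lp_le_ht (x n) p (mp p hp)).trans (hht n hn)
  choose! Kp hKp using hp'
  set KK : ℝ := K0 + ∑ p ∈ S₀, Kp p with hKK
  set B : ℝ := |KK| + |C₀| with hB
  have hB0 : 0 ≤ B := by positivity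
  have hlog6 : 0 ≤ Real.log 6 := Real.log_nonneg (by norm_num)
  obtain ⟨I, hI⟩ := exists_nat_ge ((n0 : ℝ) + B * (1 + Real.log 6) + 1)
  have hI1 : (1 : ℝ) ≤ I := by
    have : 0 ≤ (n0 : ℝ) := Nat.cast_nonneg _
    have : 0 ≤ B * (1 + Real.log 6) := by positivity
    linarith
  have hlogX : Real.log ((6 ^ I : ℕ) : ℝ) = I * Real.log 6 := by
    push_cast
    rw [Real.log_pow]
  have h6I : 1 ≤ 6 ^ I := Nat.one_le_pow _ _ (by norm_num)
  let P : Finset (ℕ × ℕ) := Icc 1 I ×ˢ Icc 1 I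
  let E1 : Finset (ℕ × ℕ) := P.filter fun q => nf q < n0
  let E2 : Finset (ℕ × ℕ) := P.filter fun q =>
    c * (nf q : ℝ) ^ 2 ≤ Real.log (max 1 |((x (nf q) : ℚ) : ℝ)|)
  let E3 : ℕ → Finset (ℕ × ℕ) := fun p => P.filter fun q =>
    c * (nf q : ℝ) ^ 2 ≤ (padicValNat p (x (nf q)).den : ℝ) * Real.log p
  let Exc : Finset (ℕ × ℕ) := E1 ∪ E2 ∪ S₀.biUnion E3
  have cE1 : (E1.card : ℝ) ≤ n0 := by
    have : E1.card ≤ (range n0).card := by
      refine Finset.card_le_card_of_injOn nf ?_ nf_inj.injOn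
      intro q hq
      rw [mem_coe, mem_filter] at hq
      rw [mem_coe, mem_range]
      exact hq.2
    rw [card_range] at this
    exact_mod_cast this
  have cE2 : (E2.card : ℝ) ≤ K0 * (1 + I * Real.log 6) := by
    have a1 := exc_card (fun n => Real.log (max 1 |((x n : ℚ) : ℝ)|)) c I
    have a2 := hK0 (6 ^ I) h6I
    rw [hlogX] at a2
    exact a1.trans a2
  have cE3 : ∀ p ∈ S₀, ((E3 p).card : ℝ) ≤ Kp p * (1 + I * Real.log 6) := by
    intro p hp
    have a1 := exc_card (fun n => (padicValNat p (x n).den : ℝ) * Real.log p) c I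
    have a2 := hKp p hp (6 ^ I) h6I
    rw [hlogX] at a2
    exact a1.trans a2
  have cExc : (Exc.card : ℝ) ≤ n0 + KK * (1 + I * Real.log 6) := by
    have a1 : Exc.card ≤ E1.card + E2.card + ∑ p ∈ S₀, (E3 p).card := by
      refine (card_union_le _ _).trans ?_
      exact add_le_add (card_union_le _ _) card_biUnion_le
    have a2 : (Exc.card : ℝ) ≤ E1.card + E2.card + ∑ p ∈ S₀, ((E3 p).card : ℝ) := by
      exact_mod_cast a1
    have a3 : ∑ p ∈ S₀, ((E3 p).card : ℝ) ≤ ∑ p ∈ S₀, Kp p * (1 + I * Real.log 6) :=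
      sum_le_sum cE3
    rw [← sum_mul] at a3
    rw [hKK]
    linarith
  -- primes attached to the good pairs
  have good : ∀ q ∈ P \ Exc, ∃ p : ℕ, p.Prime ∧ p ∉ S₀ ∧ p ∣ (x (nf q)).den ∧
      ¬ p ∣ (x (nf (q.1 - 1, q.2))).den ∧ ¬ p ∣ (x (nf (q.1, q.2 - 1))).den := by
    intro q hq
    rw [mem_sdiff] at hq
    obtain ⟨hqP, hqE⟩ := hq
    have hqP' := hqP
    rw [mem_product, mem_Icc, mem_Icc] at hqP'
    have b1 : n0 ≤ nf q := by
      by_contra hlt
      exact hqE (mem_union_left _ (mem_union_left _ (mem_filter.2 ⟨hqP, not_le.1 hlt⟩)))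
    have b2 : Real.log (max 1 |((x (nf q) : ℚ) : ℝ)|) < c * (nf q : ℝ) ^ 2 := by
      by_contra hlt
      exact hqE (mem_union_left _ (mem_union_right _ (mem_filter.2 ⟨hqP, not_lt.1 hlt⟩)))
    have b3 : ∀ p ∈ S₀, (padicValNat p (x (nf q)).den : ℝ) * Real.log p <
        c * (nf q : ℝ) ^ 2 := by
      intro p hp
      by_contra hlt
      exact hqE (mem_union_right _ (mem_biUnion.2 ⟨p, hp, mem_filter.2 ⟨hqP, not_lt.1 hlt⟩⟩))
    exact H q.1 q.2 hqP'.1.1 hqP'.2.1 b1 b2 b3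
  choose! pr hpr using good
  have hinj : Set.InjOn pr ((P \ Exc : Finset (ℕ × ℕ)) : Set (ℕ × ℕ)) := by
    intro q hq q' hq' heq
    obtain ⟨a1, a2, a3, a4, a5⟩ := hpr q hq
    obtain ⟨b1, b2, b3, b4, b5⟩ := hpr q' hq'
    rw [← heq] at b3 b4 b5
    have c1 := pair_le hX a1 a3 b3 a4 a5
    have c2 := pair_le hX a1 b3 a3 b4 b5
    exact Prod.ext (le_antisymm c1.1 c2.1) (le_antisymm c1.2 c2.2)
  refine ⟨6 ^ I, h6I, (P \ Exc).image pr, ?_, ?_⟩
  · intro p hp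
    obtain ⟨q, hq, rfl⟩ := mem_image.1 hp
    obtain ⟨a1, a2, a3, a4, a5⟩ := hpr q hq
    refine ⟨a1, ?_, ?_⟩
    · intro hdvd
      exact a2 (Nat.mem_primeFactors.2 ⟨a1, hdvd.mul_left 6, h6D⟩)
    · have hqP := (mem_sdiff.1 hq).1
      rw [mem_product, mem_Icc, mem_Icc] at hqP
      have e : (6 : ℕ) ^ I = nf (I, I) := six_pow I
      rw [e]
      exact dvd_mem hX a1 (nf_pos _) (nf_pos _) (nf_dvd hqP.1.2 hqP.2.2) a3
  · rw [card_image_of_injOn hinj, hlogX]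
    have a1 : (P.card : ℝ) ≤ ((P \ Exc).card : ℝ) + Exc.card := by
      have : P.card ≤ (P \ Exc).card + Exc.card := by
        exact card_le_card_sdiff_add_card
      exact_mod_cast this
    have a2 : (P.card : ℝ) = (I : ℝ) ^ 2 := by
      have : P.card = I * I := by
        show (Icc 1 I ×ˢ Icc 1 I).card = I * I
        rw [card_product, Nat.card_Icc]
        simp
      rw [this]
      push_cast
      ring
    have hI0 : (0 : ℝ) ≤ I := by linarith
    have a3 : KK * (1 + I * Real.log 6) + C₀ * (1 + I * Real.log 6) ≤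
        B * (1 + Real.log 6) * I := by
      have b1 : KK ≤ |KK| := le_abs_self _
      have b2 : C₀ ≤ |C₀| := le_abs_self _
      have b3 : 0 ≤ 1 + I * Real.log 6 := by positivity
      have b4 : (KK + C₀) * (1 + I * Real.log 6) ≤ B * (1 + I * Real.log 6) :=
        mul_le_mul_of_nonneg_right (by linarith) b3
      have b5 : B * (1 + I * Real.log 6) ≤ B * ((1 + Real.log 6) * I) :=
        mul_le_mul_of_nonneg_left (by nlinarith) hB0
      linarith
    have a4 : (n0 : ℝ) ≤ n0 * I := le_mul_of_one_le_right (Nat.cast_nonneg _) hI1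
    have a5 : ((n0 : ℝ) + B * (1 + Real.log 6)) * I ≤ I * I :=
      mul_le_mul_of_nonneg_right (by linarith) hI0
    nlinarith

end Pool.Agent.H443R3.RREDS
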